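import Mathlib

open scoped ENNReal NNReal
open Filter Topology

namespace Pool.Agent.Results.MP_814c9d_an.NoUncountableL1

universe u v

/-- The subspace `Y` has density character at most `κ`. -/
def DensLE {X : Type u} [NormedAddCommGroup X] [NormedSpace ℝ X] (κ : Cardinal.{u})
    (Y : Submodule ℝ X) : Prop :=
  ∃ D : Set X, D ⊆ (Y : Set X) ∧ Cardinal.mk D ≤ κ ∧ (Y : Set X) ⊆ closure D

/-- `X` is `κ`-octahedral. -/
def KappaOctahedral (κ : Cardinal.{u}) (X : Type u) [NormedAddCommGroup X] [NormedSpace ℝ X] :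
    Prop :=
  ∀ ε : ℝ, 0 < ε → ∀ Y : Submodule ℝ X, DensLE κ Y →
    ∃ x : X, ‖x‖ = 1 ∧ ∀ (l : ℝ) (y : X), y ∈ Y → (1 - ε) * (|l| + ‖y‖) ≤ ‖l • x + y‖

/-- `X` contains an isomorphic copy of `ℓ_1(Γ)`. -/
def ContainsL1 (Γ : Type v) (X : Type u) [NormedAddCommGroup X] [NormedSpace ℝ X] : Prop :=
  ∃ Z : Submodule ℝ X, IsClosed (Z : Set X) ∧ Nonempty (lp (fun _ : Γ => ℝ) 1 ≃L[ℝ] Z)

/-! ### The exponents -/

/-- the exponents `p_n = 1 + 1/(n+1)` as real numbers -/
noncomputable def pr (n : ℕ) : ℝ := 1 + 1 / ((n : ℝ) + 1)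

/-- the exponents as extended nonnegative reals -/
noncomputable def pe (n : ℕ) : ℝ≥0∞ := ENNReal.ofReal (pr n)

lemma one_lt_pr (n : ℕ) : 1 < pr n := by
  unfold pr
  have : (0 : ℝ) < 1 / ((n : ℝ) + 1) := by positivity
  linarith

lemma pr_pos (n : ℕ) : 0 < pr n := lt_trans one_pos (one_lt_pr n)

lemma pr_le_two (n : ℕ) : pr n ≤ 2 := by
  unfold pr
  have h : (1 : ℝ) / ((n : ℝ) + 1) ≤ 1 := by
    rw [div_le_one (by positivity)]
    have : (0 : ℝ) ≤ n := Nat.cast_nonneg n
    linarith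
  linarith

lemma pe_toReal (n : ℕ) : (pe n).toReal = pr n := by
  unfold pe
  exact ENNReal.toReal_ofReal (pr_pos n).le

lemma pe_ne_top (n : ℕ) : pe n ≠ ∞ := ENNReal.ofReal_ne_top

lemma one_le_pe (n : ℕ) : 1 ≤ pe n := by
  unfold pe
  rw [ENNReal.one_le_ofReal]
  exact (one_lt_pr n).le

noncomputable instance factPe (n : ℕ) : Fact (1 ≤ pe n) := ⟨one_le_pe n⟩

lemma pe_toReal_pos (n : ℕ) : 0 < (pe n).toReal := by rw [pe_toReal]; exact pr_pos n

lemma tendsto_pr : Tendsto pr atTop (𝓝 1) := by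
  have h := tendsto_one_div_add_atTop_nhds_zero_nat (𝕜 := ℝ)
  have h2 := h.const_add 1
  rw [add_zero] at h2
  exact h2

/-- the summands -/
abbrev EE (ι : Type u) (n : ℕ) : Type u := lp (fun _ : ι => ℝ) (pe n)

/-- the space -/
abbrev XX (ι : Type u) : Type u := lp (fun n : ℕ => EE ι n) 1

/-! ### Norm formulas -/

lemma norm_EE (ι : Type u) (n : ℕ) (f : EE ι n) : ‖f‖ ^ pr n = ∑' i, |f i| ^ pr n := by
  have h := lp.norm_rpow_eq_tsum (pe_toReal_pos n) f
  rw [pe_toReal] at h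
  simpa [Real.norm_eq_abs] using h

lemma summable_EE (ι : Type u) (n : ℕ) (f : EE ι n) : Summable (fun i => |f i| ^ pr n) := by
  have h := (lp.memℓp f).summable (pe_toReal_pos n)
  rw [pe_toReal] at h
  simpa [Real.norm_eq_abs] using h

lemma norm_XX (ι : Type u) (f : XX ι) : ‖f‖ = ∑' n, ‖f n‖ := by
  have h := lp.norm_rpow_eq_tsum (p := 1) (by simp) f
  simpa using h

lemma summable_XX (ι : Type u) (f : XX ι) : Summable (fun n => ‖f n‖) := by
  have h := (lp.memℓp f).summable (by simp)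
  simpa using h

lemma norm_l1 (Γ : Type v) (f : lp (fun _ : Γ => ℝ) 1) : ‖f‖ = ∑' n, |f n| := by
  have h := lp.norm_rpow_eq_tsum (p := 1) (by simp) f
  simpa [Real.norm_eq_abs] using h

/-! ### Two point inequalities -/

/-- `2^(1/p-1) (a+b) ≤ (a^p+b^p)^(1/p)` -/
lemma two_point_conv {p : ℝ} (hp : 1 ≤ p) {a b : ℝ} (ha : 0 ≤ a) (hb : 0 ≤ b) :
    (2 : ℝ) ^ (1 / p - 1) * (a + b) ≤ (a ^ p + b ^ p) ^ (1 / p) := by
  have hp0 : 0 < p := by linarith
  have h := Real.arith_mean_le_rpow_mean (Finset.univ : Finset (Fin 2)) (fun _ => (1 / 2 : ℝ))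
    ![a, b] (by intro i _; norm_num) (by simp) (by
      intro i _
      fin_cases i <;> simp [ha, hb]) hp
  simp only [Fin.sum_univ_two, Matrix.cons_val_zero, Matrix.cons_val_one] at h
  have h1 : (1 / 2 * a ^ p + 1 / 2 * b ^ p : ℝ) = (a ^ p + b ^ p) / 2 := by ring
  rw [h1] at h
  have ha' : 0 ≤ a ^ p := Real.rpow_nonneg ha p
  have hb' : 0 ≤ b ^ p := Real.rpow_nonneg hb p
  rw [Real.div_rpow (by positivity) (by norm_num)] at h
  have h2 : (0 : ℝ) < (2 : ℝ) ^ (1 / p) := by positivity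
  rw [Real.rpow_sub (by norm_num), Real.rpow_one]
  rw [le_div_iff₀ h2] at h
  calc (2 : ℝ) ^ (1 / p) / 2 * (a + b) = (1 / 2 * a + 1 / 2 * b) * (2 : ℝ) ^ (1 / p) := by ring
    _ ≤ _ := h

lemma two_point {p : ℝ} (h1 : 1 ≤ p) (h2 : p ≤ 2) (a b : ℝ) :
    |a + b| ^ p + |a - b| ^ p ≤ 2 * (|a| ^ p + |b| ^ p) := by
  have hp0 : 0 < p := by linarith
  have key : ∀ x : ℝ, (|x| ^ p) ^ (2 / p) = x ^ 2 := by
    intro x
    rw [← Real.rpow_mul (abs_nonneg x)]
    have : p * (2 / p) = 2 := by field_simp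
    rw [this]
    rw [Real.rpow_two, sq_abs]
  have key2 : ∀ x : ℝ, (x ^ 2) ^ (p / 2) = |x| ^ p := by
    intro x
    rw [← sq_abs, ← Real.rpow_natCast |x| 2, ← Real.rpow_mul (abs_nonneg x)]
    congr 1
    push_cast
    ring
  have hq : 1 ≤ 2 / p := by rw [le_div_iff₀ hp0]; linarith
  have h := Real.arith_mean_le_rpow_mean (Finset.univ : Finset (Fin 2)) (fun _ => (1 / 2 : ℝ))
    ![|a + b| ^ p, |a - b| ^ p] (by intro i _; norm_num) (by simp) (by
      intro i _
      fin_cases i <;> simp <;> positivity) hq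
  simp only [Fin.sum_univ_two, Matrix.cons_val_zero, Matrix.cons_val_one] at h
  rw [key, key] at h
  have h3 : (1 / 2 * (a + b) ^ 2 + 1 / 2 * (a - b) ^ 2 : ℝ) = a ^ 2 + b ^ 2 := by ring
  have h4 : (1 : ℝ) / (2 / p) = p / 2 := by field_simp
  rw [h3, h4] at h
  have h5 := Real.rpow_add_le_add_rpow (sq_nonneg a) (sq_nonneg b) (p := p / 2) (by positivity)
    (by linarith)
  rw [key2, key2] at h5
  linarith

/-! ### `XX` is octahedral -/

lemma norm_add_single (ι : Type u) (n : ℕ) (f : EE ι n) (α : ι) (hα : f α = 0) (l : ℝ)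
    [DecidableEq ι] :
    ‖l • (lp.single (pe n) α (1 : ℝ) : EE ι n) + f‖ ^ pr n = |l| ^ pr n + ‖f‖ ^ pr n := by
  rw [norm_EE, norm_EE]
  have h : (fun i => |(l • (lp.single (pe n) α (1 : ℝ) : EE ι n) + f : EE ι n) i| ^ pr n)
      = fun i => (if i = α then |l| ^ pr n else 0) + |f i| ^ pr n := by
    funext i
    rw [lp.coeFn_add, lp.coeFn_smul, Pi.add_apply, Pi.smul_apply]
    by_cases hi : i = α
    · subst hi
      rw [lp.single_apply_self, hα]
      simp [Real.zero_rpow (pr_pos n).ne']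
    · rw [lp.single_apply_ne _ _ _ hi]
      simp [hi]
  rw [h, Summable.tsum_add, tsum_ite_eq]
  · exact (hasSum_ite_eq α _).summable
  · exact summable_EE ι n f

lemma norm_add_single_ge (ι : Type u) (n : ℕ) (f : EE ι n) (α : ι) (hα : f α = 0) (l : ℝ)
    [DecidableEq ι] :
    (2 : ℝ) ^ (1 / pr n - 1) * (|l| + ‖f‖) ≤
      ‖l • (lp.single (pe n) α (1 : ℝ) : EE ι n) + f‖ := by
  have h := two_point_conv (one_lt_pr n).le (abs_nonneg l) (norm_nonneg f)
  rw [← norm_add_single ι n f α hα l, ← Real.rpow_mul (norm_nonneg _)] at h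
  rwa [mul_one_div_cancel (pr_pos n).ne', Real.rpow_one] at h

lemma countable_support (ι : Type u) (n : ℕ) (f : EE ι n) : {i | f i ≠ 0}.Countable := by
  have h := (summable_EE ι n f).countable_support
  refine h.mono ?_
  intro i hi
  rw [Function.mem_support]
  have : 0 < |f i| ^ pr n := Real.rpow_pos_of_pos (abs_pos.mpr hi) _
  exact this.ne'

lemma exists_good (ε : ℝ) (hε : 0 < ε) : ∃ n : ℕ, 1 - ε ≤ (2 : ℝ) ^ (1 / pr n - 1) := by
  have h1 : Tendsto (fun n : ℕ => (1 / pr n - 1 : ℝ)) atTop (𝓝 (1 / 1 - 1)) :=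
    (tendsto_const_nhds.div tendsto_pr one_ne_zero).sub_const 1
  have h2 : Tendsto (fun n : ℕ => (2 : ℝ) ^ (1 / pr n - 1)) atTop (𝓝 ((2 : ℝ) ^ (1 / 1 - 1 : ℝ))) :=
    ((Real.continuous_const_rpow two_ne_zero).tendsto (1 / 1 - 1)).comp h1
  norm_num at h2
  have h3 : ∀ᶠ n : ℕ in atTop, 1 - ε < (2 : ℝ) ^ (1 / pr n - 1) := by
    have := h2.eventually_const_lt (show 1 - ε < 1 by linarith)
    simpa using this
  obtain ⟨n, hn⟩ := h3.exists
  exact ⟨n, hn.le⟩

theorem octahedral (κ : Cardinal.{u}) (hκ : Cardinal.aleph0 ≤ κ) (ι : Type u)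
    (hι : κ < Cardinal.mk ι) : KappaOctahedral κ (XX ι) := by
  classical
  rintro ε hε Y ⟨D, hDY, hDκ, hYD⟩
  let S : Set ι := ⋃ q : D × ULift.{u} ℕ, {i | (q.1.1 q.2.down) i ≠ 0}
  have hS : Cardinal.mk S ≤ κ := by
    refine (Cardinal.mk_iUnion_le_sum_mk).trans ?_
    refine (Cardinal.sum_le_sum _ (fun _ => Cardinal.aleph0) ?_).trans ?_
    · intro q
      have := countable_support ι q.2.down (q.1.1 q.2.down)
      exact Cardinal.mk_le_aleph0_iff.mpr this
    · rw [Cardinal.sum_const', Cardinal.mk_prod]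
      simp only [Cardinal.lift_id, Cardinal.mk_uLift, Cardinal.mk_nat, Cardinal.lift_aleph0]
      calc Cardinal.mk D * Cardinal.aleph0 * Cardinal.aleph0 ≤ κ * κ * κ := by gcongr
        _ = κ := by rw [Cardinal.mul_eq_self hκ, Cardinal.mul_eq_self hκ]
  obtain ⟨α, hα⟩ : ∃ α, α ∉ S := by
    by_contra hcon
    push Not at hcon
    have : S = Set.univ := Set.eq_univ_of_forall hcon
    rw [this, Cardinal.mk_univ] at hS
    exact absurd hS (not_le.mpr hι)
  have hzero : ∀ y ∈ Y, ∀ n, (y n) α = 0 := by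
    intro y hy n
    have hcl : IsClosed {z : XX ι | (z n) α = 0} := by
      have hc : Continuous (fun z : XX ι => (z n) α) := by
        have h1 : Continuous (lp.evalCLM ℝ (fun n : ℕ => EE ι n) 1 n) :=
          (lp.evalCLM ℝ (fun n : ℕ => EE ι n) 1 n).continuous
        have h2 : Continuous (lp.evalCLM ℝ (fun _ : ι => ℝ) (pe n) α) :=
          (lp.evalCLM ℝ (fun _ : ι => ℝ) (pe n) α).continuous
        exact h2.comp h1
      exact isClosed_eq hc continuous_const
    have hsub : D ⊆ {z : XX ι | (z n) α = 0} := by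
      intro d hd
      by_contra hne
      exact hα (Set.mem_iUnion.mpr ⟨(⟨d, hd⟩, ⟨n⟩), hne⟩)
    exact closure_minimal hsub hcl (hYD hy)
  obtain ⟨n, hn⟩ := exists_good ε hε
  refine ⟨lp.single 1 n (lp.single (pe n) α (1 : ℝ)), ?_, ?_⟩
  · rw [lp.norm_single (by norm_num), lp.norm_single (lt_of_lt_of_le one_pos (one_le_pe n))]
    simp
  · intro l y hy
    set x : XX ι := lp.single 1 n (lp.single (pe n) α (1 : ℝ)) with hx
    have hself : (l • x + y : XX ι) n = l • (lp.single (pe n) α (1 : ℝ) : EE ι n) + y n := by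
      rw [lp.coeFn_add, lp.coeFn_smul, Pi.add_apply, Pi.smul_apply, hx, lp.single_apply_self]
    have hother : ∀ m, m ≠ n → (l • x + y : XX ι) m = y m := by
      intro m hm
      rw [lp.coeFn_add, lp.coeFn_smul, Pi.add_apply, Pi.smul_apply, hx,
        lp.single_apply_ne _ _ _ hm]
      simp
    rw [norm_XX ι (l • x + y), norm_XX ι y]
    rw [(summable_XX ι (l • x + y)).tsum_eq_add_tsum_ite n,
      (summable_XX ι y).tsum_eq_add_tsum_ite n]
    have heq : (∑' m, ite (m = n) 0 ‖(l • x + y : XX ι) m‖) = ∑' m, ite (m = n) 0 ‖y m‖ := by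
      congr 1
      funext m
      by_cases hm : m = n
      · simp [hm]
      · simp only [hm, if_false]
        rw [hother m hm]
    rw [heq, hself]
    have h1 := norm_add_single_ge ι n (y n) α (hzero y hy n) l
    have h2 : 0 ≤ ∑' m, ite (m = n) 0 ‖y m‖ := by
      apply tsum_nonneg
      intro m
      split_ifs
      · exact le_refl _
      · exact norm_nonneg _
    have h3 : (1 - ε) * (|l| + ‖y n‖) ≤ (2 : ℝ) ^ (1 / pr n - 1) * (|l| + ‖y n‖) := by
      gcongr
    nlinarith [mul_nonneg hε.le h2]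

/-! ### `XX` contains no uncountable `ℓ_1` -/

/-- the functional adding the powers of the norms of the first `N` coordinates -/
noncomputable def FF (ι : Type u) (N : ℕ) (z : XX ι) : ℝ := ∑ k ∈ Finset.range N, ‖z k‖ ^ pr k

/-- the tail of the norm -/
noncomputable def tail (ι : Type u) (N : ℕ) (z : XX ι) : ℝ := ∑' k, ‖z (k + N)‖

lemma two_point_EE (ι : Type u) (n : ℕ) (f g : EE ι n) :
    ‖f + g‖ ^ pr n + ‖f - g‖ ^ pr n ≤ 2 * (‖f‖ ^ pr n + ‖g‖ ^ pr n) := by
  rw [norm_EE, norm_EE, norm_EE, norm_EE]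
  rw [← Summable.tsum_add (summable_EE ι n _) (summable_EE ι n _),
    ← Summable.tsum_add (summable_EE ι n _) (summable_EE ι n _), ← tsum_mul_left]
  refine Summable.tsum_le_tsum ?_ ((summable_EE ι n _).add (summable_EE ι n _))
    (((summable_EE ι n _).add (summable_EE ι n _)).mul_left 2)
  intro i
  rw [lp.coeFn_add, lp.coeFn_sub, Pi.add_apply, Pi.sub_apply]
  exact two_point (one_lt_pr n).le (pr_le_two n) _ _

lemma two_point_FF (ι : Type u) (N : ℕ) (z w : XX ι) :
    FF ι N (z + w) + FF ι N (z - w) ≤ 2 * (FF ι N z + FF ι N w) := by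
  unfold FF
  rw [← Finset.sum_add_distrib, ← Finset.sum_add_distrib, Finset.mul_sum]
  apply Finset.sum_le_sum
  intro k _
  rw [lp.coeFn_add, lp.coeFn_sub, Pi.add_apply, Pi.sub_apply]
  exact two_point_EE ι k _ _

lemma FF_zero (ι : Type u) (N : ℕ) : FF ι N 0 = 0 := by
  unfold FF
  apply Finset.sum_eq_zero
  intro k _
  rw [lp.coeFn_zero, Pi.zero_apply, norm_zero, Real.zero_rpow (pr_pos k).ne']

lemma signs (ι : Type u) (N : ℕ) (x : ℕ → XX ι) (m : ℕ) :
    ∃ s : ℕ → ℝ, (∀ i, |s i| = 1) ∧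
      FF ι N (∑ i ∈ Finset.range m, s i • x i) ≤ ∑ i ∈ Finset.range m, FF ι N (x i) := by
  induction m with
  | zero => exact ⟨fun _ => 1, fun _ => abs_one, by simp [FF_zero]⟩
  | succ m ih =>
    obtain ⟨s, hs, hF⟩ := ih
    set z := ∑ i ∈ Finset.range m, s i • x i with hz
    have key : ∀ t : ℝ, |t| = 1 → FF ι N (z + t • x m) ≤ FF ι N z + FF ι N (x m) →
        ∃ s : ℕ → ℝ, (∀ i, |s i| = 1) ∧
      FF ι N (∑ i ∈ Finset.range (m + 1), s i • x i) ≤
        ∑ i ∈ Finset.range (m + 1), FF ι N (x i) := by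
      intro t ht hle
      refine ⟨Function.update s m t, ?_, ?_⟩
      · intro i
        by_cases hi : i = m
        · subst hi; simpa using ht
        · rw [Function.update_of_ne hi]; exact hs i
      · rw [Finset.sum_range_succ, Finset.sum_range_succ, Function.update_self]
        have : ∑ i ∈ Finset.range m, Function.update s m t i • x i = z := by
          rw [hz]
          apply Finset.sum_congr rfl
          intro i hi
          rw [Function.update_of_ne (Finset.mem_range.mp hi).ne]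
        rw [this]
        linarith
    have h2 := two_point_FF ι N z (x m)
    by_cases hc : FF ι N (z + x m) ≤ FF ι N z + FF ι N (x m)
    · exact key 1 abs_one (by simpa using hc)
    · refine key (-1) (by simp) ?_
      have : z + (-1 : ℝ) • x m = z - x m := by
        rw [neg_one_smul, sub_eq_add_neg]
      rw [this]
      linarith [not_le.mp hc]

lemma summable_tail (ι : Type u) (N : ℕ) (z : XX ι) : Summable (fun k => ‖z (k + N)‖) := by
  have h : Summable (fun k : ℕ => ‖z k‖) := summable_XX ι z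
  generalize hf : (fun k : ℕ => ‖z k‖) = f at h
  have h2 : (fun k : ℕ => ‖z (k + N)‖) = fun k => f (k + N) := by
    funext k
    rw [← hf]
  rw [h2]
  exact (summable_nat_add_iff N).mpr h

lemma tail_add (ι : Type u) (N : ℕ) (z w : XX ι) : tail ι N (z + w) ≤ tail ι N z + tail ι N w := by
  unfold tail
  rw [← Summable.tsum_add (summable_tail ι N z) (summable_tail ι N w)]
  refine Summable.tsum_le_tsum ?_ (summable_tail ι N _)
    ((summable_tail ι N z).add (summable_tail ι N w))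
  intro k
  rw [lp.coeFn_add, Pi.add_apply]
  exact norm_add_le _ _

lemma tail_smul (ι : Type u) (N : ℕ) (z : XX ι) (t : ℝ) (ht : |t| = 1) :
    tail ι N (t • z) = tail ι N z := by
  unfold tail
  congr 1
  funext k
  rw [lp.coeFn_smul, Pi.smul_apply, norm_smul, Real.norm_eq_abs, ht, one_mul]

lemma tail_sum (ι : Type u) (N : ℕ) (x : ℕ → XX ι) (s : ℕ → ℝ) (hs : ∀ i, |s i| = 1) (δ : ℝ)
    (hδ : ∀ i, tail ι N (x i) ≤ δ) (m : ℕ) :
    tail ι N (∑ i ∈ Finset.range m, s i • x i) ≤ m * δ := by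
  induction m with
  | zero => simp [tail]
  | succ m ih =>
    rw [Finset.sum_range_succ]
    refine (tail_add ι N _ _).trans ?_
    rw [tail_smul ι N _ _ (hs m)]
    push_cast
    linarith [hδ m]

lemma norm_eq_head_tail (ι : Type u) (N : ℕ) (z : XX ι) :
    ‖z‖ = ∑ k ∈ Finset.range N, ‖z k‖ + tail ι N z := by
  rw [norm_XX]
  exact ((summable_XX ι z).sum_add_tsum_nat_add N).symm

lemma exists_tail (ι : Type u) (z : XX ι) (δ : ℝ) (hδ : 0 < δ) : ∃ N, tail ι N z ≤ δ := by
  have h := tendsto_sum_nat_add (fun k => ‖z k‖)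
  obtain ⟨N, hN⟩ := (h.eventually_lt_const hδ).exists
  exact ⟨N, hN.le⟩

lemma tendsto_head (N : ℕ) (K M : ℝ) (hM : 0 ≤ M) :
    Tendsto (fun m : ℕ => K * ∑ k ∈ Finset.range N, ((m : ℝ) * M) ^ (1 / pr k) / m) atTop
      (𝓝 0) := by
  have h : ∀ k ∈ Finset.range N,
      Tendsto (fun m : ℕ => ((m : ℝ) * M) ^ (1 / pr k) / m) atTop (𝓝 0) := by
    intro k _
    have hy : 0 < 1 - 1 / pr k := by
      rw [sub_pos, div_lt_one (pr_pos k)]
      exact one_lt_pr k
    have h1 : Tendsto (fun m : ℕ => M ^ (1 / pr k) * (m : ℝ) ^ (-(1 - 1 / pr k))) atTop (𝓝 0) := by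
      have := ((tendsto_rpow_neg_atTop hy).comp tendsto_natCast_atTop_atTop).const_mul
        (M ^ (1 / pr k))
      simpa using this
    refine h1.congr' ?_
    filter_upwards [eventually_gt_atTop 0] with m hm
    have hm' : (0 : ℝ) < m := by exact_mod_cast hm
    rw [Real.mul_rpow hm'.le hM, neg_sub, Real.rpow_sub hm', Real.rpow_one]
    ring
  have h2 := (tendsto_finsetSum _ h).const_mul K
  simpa using h2

theorem no_l1 (ι : Type u) (Γ : Type v) [Uncountable Γ] : ¬ ContainsL1 Γ (XX ι) := by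
  classical
  rintro ⟨Z, _, ⟨e⟩⟩
  let T : lp (fun _ : Γ => ℝ) 1 →L[ℝ] XX ι := Z.subtypeL.comp (e : _ →L[ℝ] Z)
  obtain ⟨K, hK, hlow⟩ : ∃ K : ℝ, 0 < K ∧ ∀ v, ‖v‖ ≤ K * ‖T v‖ := by
    refine ⟨‖(e.symm : Z →L[ℝ] lp (fun _ : Γ => ℝ) 1)‖ + 1, by positivity, ?_⟩
    intro v
    have h1 : ‖v‖ = ‖(e.symm : Z →L[ℝ] lp (fun _ : Γ => ℝ) 1) (e v)‖ := by simp
    have h2 := (e.symm : Z →L[ℝ] lp (fun _ : Γ => ℝ) 1).le_opNorm (e v)
    have h3 : ‖T v‖ = ‖e v‖ := rfl
    rw [h1, h3]
    nlinarith [norm_nonneg (e v)]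
  let x : Γ → XX ι := fun γ => T (lp.single 1 γ (1 : ℝ))
  obtain ⟨C, hC, hxC⟩ : ∃ C : ℝ, 0 < C ∧ ∀ γ, ‖x γ‖ ≤ C := by
    refine ⟨‖T‖ + 1, by positivity, ?_⟩
    intro γ
    have h1 := T.le_opNorm (lp.single 1 γ (1 : ℝ))
    rw [lp.norm_single (by norm_num)] at h1
    simp only [norm_one, mul_one] at h1
    exact h1.trans (by linarith)
  have hδ : 0 < 1 / (2 * K) := by positivity
  choose Nf hNf using fun γ : Γ => exists_tail ι (x γ) (1 / (2 * K)) hδ
  obtain ⟨N, hN⟩ : ∃ N, Set.Infinite {γ | Nf γ = N} := by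
    by_contra hcon
    push Not at hcon
    have hfin : ∀ N, Set.Finite {γ | Nf γ = N} := hcon
    have huniv : (⋃ N, {γ | Nf γ = N}) = (Set.univ : Set Γ) := by
      ext γ; simp
    have hcount : (Set.univ : Set Γ).Countable := by
      rw [← huniv]
      exact Set.countable_iUnion fun N => (hfin N).countable
    exact not_countable (Set.countable_univ_iff.mp hcount)
  let g : ℕ ↪ {γ | Nf γ = N} := hN.natEmbedding
  let y : ℕ → XX ι := fun i => x (g i).1
  have hytail : ∀ i, tail ι N (y i) ≤ 1 / (2 * K) := by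
    intro i
    have := hNf (g i).1
    have hi : Nf (g i).1 = N := (g i).2
    rw [hi] at this
    exact this
  let M : ℝ := ∑ k ∈ Finset.range N, C ^ pr k
  have hM : 0 ≤ M := Finset.sum_nonneg fun k _ => Real.rpow_nonneg hC.le _
  have hyF : ∀ i, FF ι N (y i) ≤ M := by
    intro i
    apply Finset.sum_le_sum
    intro k _
    apply Real.rpow_le_rpow (norm_nonneg _) _ (pr_pos k).le
    exact (lp.norm_apply_le_norm (by norm_num) (y i) k).trans (hxC _)
  -- the main inequality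
  have main : ∀ m : ℕ, 0 < m →
      1 / 2 ≤ K * ∑ k ∈ Finset.range N, ((m : ℝ) * M) ^ (1 / pr k) / m := by
    intro m hm
    have hm' : (0 : ℝ) < m := by exact_mod_cast hm
    obtain ⟨s, hs, hF⟩ := signs ι N y m
    set z := ∑ i ∈ Finset.range m, s i • y i with hz
    have hFM : FF ι N z ≤ m * M := by
      refine hF.trans ?_
      refine (Finset.sum_le_sum (fun i _ => hyF i)).trans ?_
      simp
    have hcoord : ∀ k ∈ Finset.range N, ‖z k‖ ≤ ((m : ℝ) * M) ^ (1 / pr k) := by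
      intro k hk
      have h1 : ‖z k‖ ^ pr k ≤ m * M := by
        refine le_trans ?_ hFM
        exact Finset.single_le_sum (f := fun k => ‖z k‖ ^ pr k)
          (fun i _ => Real.rpow_nonneg (norm_nonneg _) _) hk
      have h2 := Real.rpow_le_rpow (Real.rpow_nonneg (norm_nonneg _) _) h1
        (show 0 ≤ 1 / pr k from (one_div_pos.mpr (pr_pos k)).le)
      rwa [← Real.rpow_mul (norm_nonneg _), mul_one_div_cancel (pr_pos k).ne', Real.rpow_one] at h2
    let v : lp (fun _ : Γ => ℝ) 1 :=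
      ∑ i ∈ Finset.range m, s i • (lp.single 1 (g i).1 (1 : ℝ) : lp (fun _ : Γ => ℝ) 1)
    have hTv : T v = z := by
      simp only [v, map_sum, map_smul]
      rfl
    have hvm : (m : ℝ) ≤ ‖v‖ := by
      have hinj : Function.Injective (fun i => (g i).1) :=
        Subtype.val_injective.comp g.injective
      have h1 : ∀ j ∈ Finset.range m, |v (g j).1| = 1 := by
        intro j hj
        have h2 : v (g j).1 = s j := by
          simp only [v]
          rw [lp.coeFn_sum, Finset.sum_apply, Finset.sum_eq_single j]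
          · rw [lp.coeFn_smul, Pi.smul_apply, lp.single_apply_self]; simp
          · intro i _ hij
            rw [lp.coeFn_smul, Pi.smul_apply, lp.single_apply_ne]
            · simp
            · exact fun h => hij (hinj h).symm
          · intro h; exact absurd hj h
        rw [h2]; exact hs j
      rw [norm_l1]
      have hsum : Summable (fun n => |v n|) := by
        have h := (lp.memℓp v).summable (by simp)
        simpa [Real.norm_eq_abs] using h
      calc (m : ℝ) = ∑ j ∈ Finset.range m, |v (g j).1| := by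
            rw [Finset.sum_congr rfl h1]; simp
        _ = ∑ γ ∈ (Finset.range m).map ⟨fun i => (g i).1, hinj⟩, |v γ| := by
            rw [Finset.sum_map]; rfl
        _ ≤ ∑' γ, |v γ| := hsum.sum_le_tsum _ (fun i _ => abs_nonneg _)
    have hlow' := hlow v
    rw [hTv, norm_eq_head_tail ι N z] at hlow'
    have ht := tail_sum ι N y s hs _ hytail m
    rw [← hz] at ht
    have hh : ∑ k ∈ Finset.range N, ‖z k‖ ≤ ∑ k ∈ Finset.range N, ((m : ℝ) * M) ^ (1 / pr k) :=
      Finset.sum_le_sum hcoord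
    have h5 : (m : ℝ) ≤ K * (∑ k ∈ Finset.range N, ((m : ℝ) * M) ^ (1 / pr k) +
        m * (1 / (2 * K))) := by
      refine hvm.trans (hlow'.trans ?_)
      gcongr
    have h6 : K * (m * (1 / (2 * K))) = m / 2 := by field_simp
    rw [mul_add, h6] at h5
    rw [← Finset.sum_div, ← mul_div_assoc, le_div_iff₀ hm']
    linarith
  have hlim := tendsto_head N K M hM
  have hev := hlim.eventually_lt_const (show (0 : ℝ) < 1 / 2 by norm_num)
  obtain ⟨m, hm1, hm2⟩ := (hev.and (eventually_gt_atTop 0)).exists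
  exact absurd (main m hm2) (not_le.mpr hm1)

/-- For every infinite cardinal `κ` there is a `κ`-octahedral Banach space which contains no
isomorphic copy of `ℓ_1(κ⁺)`; in fact it contains no isomorphic copy of `ℓ_1(Γ)` for any
uncountable set `Γ`. -/
theorem result (κ : Cardinal.{u}) (hκ : Cardinal.aleph0 ≤ κ) :
    ∃ (X : Type u) (_ : NormedAddCommGroup X) (_ : NormedSpace ℝ X),
      CompleteSpace X ∧ KappaOctahedral κ X ∧
      (∀ Γ : Type u, Cardinal.mk Γ = Order.succ κ → ¬ ContainsL1 Γ X) ∧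
      (∀ Γ : Type v, Uncountable Γ → ¬ ContainsL1 Γ X) := by
  refine ⟨XX (Order.succ κ).out, inferInstance, inferInstance, inferInstance, ?_, ?_, ?_⟩
  · apply octahedral κ hκ
    rw [Cardinal.mk_out]
    exact Order.lt_succ κ
  · intro Γ hΓ
    have : Uncountable Γ := by
      rw [← Cardinal.aleph0_lt_mk_iff, hΓ]
      exact lt_of_le_of_lt hκ (Order.lt_succ κ)
    exact no_l1 _ Γ
  · intro Γ hΓ
    exact no_l1 _ Γ

end Pool.Agent.Results.MP_814c9d_an.NoUncountableL1
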